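import Pool.Agent.P.MP_78c350_an.Main

namespace Pool.Agent.Results.MP_78c350_an.NonPoorNonConglomerated

/-- `F` is a free filter: it is proper and contains every cofinite set. -/
def IsFreeFilter (F : Filter ℕ) : Prop :=
  ∅ ∉ F ∧ ∀ A : Set ℕ, Aᶜ.Finite → A ∈ F

/-- The ideal of `F`: complements of members of `F`. -/
def idealOf (F : Filter ℕ) : Set (Set ℕ) := {B | ∃ A ∈ F, B = Aᶜ}

/-- The grill of `F`: the sets outside the ideal of `F`. -/
def grillOf (F : Filter ℕ) : Set (Set ℕ) := (idealOf F)ᶜ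

/-- `F` is poor: every family of pairwise `F`-almost disjoint sets of the grill is at most
countable. -/
def IsPoor (F : Filter ℕ) : Prop :=
  ∀ 𝒜 : Set (Set ℕ), 𝒜 ⊆ grillOf F → (𝒜.Pairwise fun A B => A ∩ B ∈ idealOf F) → 𝒜.Countable

/-- `F` is conglomerated: there are pairwise disjoint sets `D n` of the ideal such that the union
of every infinite subfamily lies in the grill. -/
def IsConglomerated (F : Filter ℕ) : Prop :=
  ∃ D : ℕ → Set ℕ, (Pairwise fun m n => Disjoint (D m) (D n)) ∧ (∀ n, D n ∈ idealOf F) ∧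
    ∀ M : Set ℕ, M.Infinite → (⋃ n ∈ M, D n) ∈ grillOf F

theorem result : ∃ F : Filter ℕ, IsFreeFilter F ∧ ¬ IsPoor F ∧ ¬ IsConglomerated F := by
  obtain ⟨F, h0, h1, h2, h3⟩ := Pool.Agent.P.MP_78c350_an.main
  have hI : ∀ B : Set ℕ, B ∈ idealOf F ↔ Bᶜ ∈ F := fun B =>
    ⟨fun ⟨A, hA, hB⟩ => by rw [hB, compl_compl]; exact hA, fun h => ⟨Bᶜ, h, (compl_compl B).symm⟩⟩
  have hG : ∀ B : Set ℕ, B ∈ grillOf F ↔ Bᶜ ∉ F := fun B => not_congr (hI B)
  refine ⟨F, ⟨h0, h1⟩, fun h => h2 fun 𝒜 ha hb => h 𝒜 (fun A hA => (hG A).2 (ha A hA))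
    (hb.mono' fun A B hAB => (hI _).2 hAB), ?_⟩
  rintro ⟨D, hD1, hD2, hD3⟩
  exact h3 ⟨D, hD1, fun n => (hI _).1 (hD2 n), fun M hM => (hG _).1 (hD3 M hM)⟩

end Pool.Agent.Results.MP_78c350_an.NonPoorNonConglomerated
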